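import Pool.Agent.Helper70.QN.MNKr

set_option autoImplicit false

/-! Dirichlet at a `p`-adic place. -/

namespace QN

open QD

theorem mnk_app (p s : ℕ) (hp : p.Prime) (x : ℚ) (hx : padicNorm p x ≤ 1) :
    ∃ c : ℤ, padicNorm p (x - c) ≤ 1 / (p : ℚ) ^ s := by
  have hpf : Fact p.Prime := ⟨hp⟩
  have hd : ¬ p ∣ x.den := by
    intro hpd
    have hnum : ¬ (p : ℤ) ∣ x.num := by
      intro h2
      have h3 : p ∣ x.num.natAbs := Int.natCast_dvd.1 h2
      have h4 := Nat.dvd_gcd h3 hpd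
      rw [x.reduced] at h4
      exact hp.one_lt.ne' (Nat.dvd_one.1 h4)
    have h5 : padicNorm p (x.num : ℚ) = 1 := (padicNorm.int_eq_one_iff _).2 hnum
    have h6 : padicNorm p (x.den : ℚ) < 1 := (padicNorm.nat_lt_one_iff _).2 hpd
    have h7 : padicNorm p x * padicNorm p (x.den : ℚ) = 1 := by
      rw [← padicNorm.mul, Rat.mul_den_eq_num, h5]
    have h8 : 0 ≤ padicNorm p (x.den : ℚ) := padicNorm.nonneg _
    have h9 : 0 ≤ padicNorm p x := padicNorm.nonneg _
    nlinarith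
  have hcop : IsCoprime (x.den : ℤ) ((p : ℤ) ^ s) := by
    have h1 : Nat.Coprime x.den (p ^ s) :=
      Nat.Coprime.pow_right s ((Nat.Prime.coprime_iff_not_dvd hp).2 hd).symm
    have h2 := Nat.isCoprime_iff_coprime.2 h1
    push_cast at h2
    exact h2
  obtain ⟨u, v, huv⟩ := hcop
  have hp0 : (p : ℚ) ≠ 0 := by exact_mod_cast hp.ne_zero
  have hd0 : (x.den : ℚ) ≠ 0 := by exact_mod_cast x.den_nz
  have huv' : (u : ℚ) * x.den + v * (p : ℚ) ^ s = 1 := by exact_mod_cast huv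
  have hxd : x = x.num / x.den := (Rat.num_div_den x).symm
  refine ⟨x.num * u, ?_⟩
  have h1 : x - ((x.num * u : ℤ) : ℚ) = ((x.num * v : ℤ) : ℚ) * (p : ℚ) ^ s / (x.den : ℚ) := by
    have h2 : x * x.den = x.num := Rat.mul_den_eq_num x
    rw [eq_div_iff hd0]
    push_cast
    linear_combination h2 - (x.num : ℚ) * huv'
  rw [h1, padicNorm.div, padicNorm.mul]
  have h3 : padicNorm p (x.den : ℚ) = 1 := (padicNorm.nat_eq_one_iff _).2 hd
  have h4 : padicNorm p ((p : ℚ) ^ s) = 1 / (p : ℚ) ^ s := by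
    have h5 : padicNorm p ((p : ℚ) ^ s) = padicNorm p (p : ℚ) ^ s := map_pow (padicAV p) (p : ℚ) s
    rw [h5, padicNorm.padicNorm_p hp.one_lt, inv_pow, one_div]
  rw [h3, h4, div_one]
  have h6 : padicNorm p ((x.num * v : ℤ) : ℚ) ≤ 1 := padicNorm.of_int _
  have h7 : (0 : ℚ) ≤ 1 / (p : ℚ) ^ s := by positivity
  calc padicNorm p ((x.num * v : ℤ) : ℚ) * (1 / (p : ℚ) ^ s) ≤ 1 * (1 / (p : ℚ) ^ s) :=
        mul_le_mul_of_nonneg_right h6 h7
    _ = 1 / (p : ℚ) ^ s := one_mul _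

theorem mnk_pig (n p s' : ℕ) (hp : p.Prime) (c : Fin n → ℤ) (j0 : Fin n) (hc : c j0 = 1) :
    ∃ z : Fin n → ℤ, z ≠ 0 ∧ (∀ j, |z j| ≤ (p : ℤ) ^ (s' * (n - 1))) ∧
      ∀ j, (p : ℤ) ^ (n * s') ∣ z j - z j0 * c j := by
  have hn : n ≠ 0 := by rintro rfl; exact j0.elim0
  have hps : p ^ (n * s') ≠ 0 := pow_ne_zero _ hp.ne_zero
  have : NeZero (p ^ (n * s')) := ⟨hps⟩
  obtain ⟨w, w', hww, hf⟩ := Fintype.exists_ne_map_eq_of_card_lt
    (fun (w : Fin n → Fin (p ^ (s' * (n - 1)) + 1)) (j : {j : Fin n // j ≠ j0}) =>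
      (((w j.1).1 : ZMod (p ^ (n * s'))) - ((w j0).1 : ZMod (p ^ (n * s'))) * (c j.1 : ZMod _)))
    (by
      have h1 : Fintype.card {j : Fin n // j ≠ j0} = n - 1 := by simp
      rw [Fintype.card_fun, Fintype.card_fun, h1, ZMod.card, Fintype.card_fin, Fintype.card_fin]
      have h2 : (p ^ (n * s')) ^ (n - 1) = (p ^ (s' * (n - 1))) ^ n := by
        rw [← pow_mul, ← pow_mul]
        congr 1
        ring
      rw [h2]
      exact Nat.pow_lt_pow_left (Nat.lt_succ_self _) hn)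
  refine ⟨fun j => ((w j).1 : ℤ) - ((w' j).1 : ℤ), ?_, ?_, ?_⟩
  · intro h
    apply hww
    funext j
    have h1 := congrFun h j
    simp only [Pi.zero_apply] at h1
    apply Fin.ext
    omega
  · intro j
    have h1 := (w j).2
    have h2 := (w' j).2
    have h3 : ((p ^ (s' * (n - 1)) : ℕ) : ℤ) = (p : ℤ) ^ (s' * (n - 1)) := by push_cast; rfl
    show |((w j).1 : ℤ) - ((w' j).1 : ℤ)| ≤ _
    rw [← h3, abs_le]
    constructor <;> omega
  · intro j
    by_cases hj : j = j0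
    · rw [hj, hc]
      simp
    · have h1 := congrFun hf ⟨j, hj⟩
      simp only at h1
      have h2 : (((((w j).1 : ℤ) - ((w' j).1 : ℤ)) - (((w j0).1 : ℤ) - ((w' j0).1 : ℤ)) * c j : ℤ)
          : ZMod (p ^ (n * s'))) = 0 := by
        push_cast
        linear_combination h1
      have h3 := (ZMod.intCast_zmod_eq_zero_iff_dvd _ _).1 h2
      have h4 : ((p ^ (n * s') : ℕ) : ℤ) = (p : ℤ) ^ (n * s') := by push_cast; rfl
      rw [h4] at h3
      exact h3

theorem st_MNKp : ST_MNKp := by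
  intro m n hm _
  refine ⟨1 + m * (n * ((m + 2) * (n + 1)) + (m + 1) * (n + 1)), ?_⟩
  intro N h1 h2 h3 k he y hy hyk p j
  by_contra hj
  rw [not_le] at hj
  have hp := Nat.prime_of_mem_primeFactors p.2
  have hpf : Fact p.1.Prime := ⟨hp⟩
  have hpm : p.1 ≤ m := Nat.le_of_mem_primeFactors p.2
  have hp0 : (0 : ℚ) < (p.1 : ℚ) := by exact_mod_cast hp.pos
  have hp2 : (2 : ℚ) ≤ (p.1 : ℚ) := by exact_mod_cast hp.two_le
  obtain ⟨j0, -, hj0⟩ := Finset.exists_max_image Finset.univ (fun j => av m (some p) (y j))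
    ⟨j, Finset.mem_univ j⟩
  have hj0' : ∀ i, av m (some p) (y i) ≤ av m (some p) (y j0) :=
    fun i => hj0 i (Finset.mem_univ i)
  have hn : 0 < n := Nat.pos_of_ne_zero (by rintro rfl; exact j0.elim0)
  obtain ⟨r, hr⟩ : ∃ r, r = k + n := ⟨_, rfl⟩
  obtain ⟨a', ha'⟩ : ∃ a', a' = m * r + n + k := ⟨_, rfl⟩
  obtain ⟨s', hs'⟩ : ∃ s', s' = a' + (1 + n + k) := ⟨_, rfl⟩
  obtain ⟨a, ha⟩ : ∃ a, a = s' * (n - 1) + a' := ⟨_, rfl⟩
  obtain ⟨e, hee⟩ : ∃ e, e = 1 + m * a + k := ⟨_, rfl⟩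
  have hsa : n * s' = a + (1 + n + k) := by
    have h4 : n * s' = s' * (n - 1) + s' := by
      obtain ⟨n', rfl⟩ : ∃ n', n = n' + 1 := ⟨n - 1, by omega⟩
      rw [Nat.add_sub_cancel]
      ring
    rw [h4, ha, hs']
    ring
  have hC : e ≤ (1 + m * (n * ((m + 2) * (n + 1)) + (m + 1) * (n + 1))) * (k + 1) := by
    have b1 : a' ≤ (m + 1) * (n + 1) * (k + 1) := by
      rw [ha', hr]
      refine Nat.le.intro (k := m * n * k + m + 1 + n * k) ?_
      ring
    have b2 : s' ≤ (m + 2) * (n + 1) * (k + 1) := by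
      have : 1 + n + k ≤ (n + 1) * (k + 1) := by
        refine Nat.le.intro (k := n * k) ?_
        ring
      calc s' ≤ (m + 1) * (n + 1) * (k + 1) + (n + 1) * (k + 1) := by omega
        _ = (m + 2) * (n + 1) * (k + 1) := by ring
    have b3 : a ≤ n * ((m + 2) * (n + 1) * (k + 1)) + (m + 1) * (n + 1) * (k + 1) := by
      have : n * s' ≤ n * ((m + 2) * (n + 1) * (k + 1)) := Nat.mul_le_mul_left _ b2
      have h5 : s' * (n - 1) ≤ n * s' := by
        rw [mul_comm]
        exact Nat.mul_le_mul_right _ (Nat.sub_le _ _)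
      omega
    calc e = 1 + m * a + k := hee
      _ ≤ 1 + m * (n * ((m + 2) * (n + 1) * (k + 1)) + (m + 1) * (n + 1) * (k + 1)) + k := by
          have := Nat.mul_le_mul_left m b3
          omega
      _ = _ := by ring
  have hY : (2 : ℚ) ^ e < av m (some p) (y j0) := by
    refine lt_of_le_of_lt ?_ (lt_of_lt_of_le hj (hj0' j))
    exact pow_le_pow_right₀ (by norm_num) hC
  have hY0 : 0 < av m (some p) (y j0) := lt_trans (by positivity) hY
  have hy0 : y j0 ≠ 0 := (av m (some p)).pos_iff.1 hY0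
  -- integers
  have hx1 : ∀ i, padicNorm p.1 (y i / y j0) ≤ 1 := by
    intro i
    rw [padicNorm.div]
    exact (div_le_one hY0).2 (hj0' i)
  choose c' hc' using fun i => mnk_app p.1 (n * s') hp (y i / y j0) (hx1 i)
  obtain ⟨c, hc⟩ : ∃ c : Fin n → ℤ, c = fun i => if i = j0 then 1 else c' i := ⟨_, rfl⟩
  have hcj : c j0 = 1 := by rw [hc]; simp
  have hcx : ∀ i, padicNorm p.1 (y i / y j0 - c i) ≤ 1 / (p.1 : ℚ) ^ (n * s') := by
    intro i
    by_cases hi : i = j0
    · rw [hi, hcj, div_self hy0]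
      simp only [Int.cast_one, sub_self, padicNorm.zero]
      positivity
    · have : c i = c' i := by rw [hc]; simp [hi]
      rw [this]
      exact hc' i
  obtain ⟨z, hz0, hzb, hzd⟩ := mnk_pig n p.1 s' hp c j0 hcj
  have hM0 : (0 : ℚ) < 2 ^ k := by positivity
  have hn2 : (n : ℚ) ≤ 2 ^ n := by exact_mod_cast (Nat.lt_two_pow_self (n := n)).le
  have hn0 : (0 : ℚ) ≤ n := by positivity
  have hmr : (m : ℚ) ^ r ≤ 2 ^ (m * r) := by
    rw [pow_mul]
    exact pow_le_pow_left₀ (by positivity) (mnk_two m) r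
  have hmq : (0 : ℚ) < m := by exact_mod_cast hm
  -- the vector
  have hx'L : (fun i => ((m : ℚ) ^ r / (p.1 : ℚ) ^ a) * (z i : ℚ)) ∈ Lam m n := by
    intro i
    refine (Bm m).mul_mem ?_ (mnk_natB m (z i))
    intro q hq hqm
    have : Fact q.Prime := ⟨hq⟩
    rw [padicNorm.div]
    have g1 : padicNorm q ((p.1 : ℚ) ^ a) = 1 := by
      have g2 : padicNorm q ((p.1 : ℚ) ^ a) = padicNorm q (p.1 : ℚ) ^ a :=
        map_pow (padicAV q) (p.1 : ℚ) a
      have g3 : padicNorm q (p.1 : ℚ) = 1 := by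
        rw [padicNorm.nat_eq_one_iff]
        intro g4
        have g5 := (Nat.prime_dvd_prime_iff_eq hq hp).1 g4
        exact hqm (g5 ▸ Nat.dvd_of_mem_primeFactors p.2)
      rw [g2, g3, one_pow]
    rw [g1, div_one]
    have g6 := padicNorm.of_int (p := q) ((m : ℤ) ^ r)
    push_cast at g6
    exact g6
  have hu0 : ((m : ℚ) ^ r / (p.1 : ℚ) ^ a) ≠ 0 := by positivity
  have hx'0 : (fun i => ((m : ℚ) ^ r / (p.1 : ℚ) ^ a) * (z i : ℚ)) ≠ 0 := by
    intro h
    apply hz0
    funext i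
    have h4 := congrFun h i
    simp only [Pi.zero_apply] at h4
    have h5 := (mul_eq_zero.1 h4).resolve_left hu0
    exact_mod_cast h5
  obtain ⟨v, hv⟩ := h3 _ hx'L hx'0
  have hsm : (fun i => ((m : ℚ) ^ r / (p.1 : ℚ) ^ a) * (z i : ℚ)) =
      ((m : ℚ) ^ r / (p.1 : ℚ) ^ a) • (fun i => (z i : ℚ)) := by
    funext i
    simp
  rw [hsm, h1, map_div₀, map_pow, map_pow] at hv
  have hint : ∀ q, N (some q) (fun i => (z i : ℚ)) ≤ 2 ^ n * 2 ^ k := by
    intro q
    refine (mnk_le h1 h2 (some q) _ _ (he (some q)) _ fun i => mnk_int m q (z i)).trans ?_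
    rw [one_mul]
    exact mul_le_mul_of_nonneg_right hn2 (by positivity)
  rcases v with _ | q
  · -- real place
    have e1 : av m none (m : ℚ) = m := abs_of_pos hmq
    have e1' : av m none (p.1 : ℚ) = p.1 := abs_of_pos hp0
    rw [e1, e1'] at hv
    have e2 : N none (fun i => (z i : ℚ)) ≤ n * ((p.1 : ℚ) ^ (s' * (n - 1)) * 2 ^ k) := by
      refine mnk_le h1 h2 none _ _ (he none) _ ?_
      intro i
      show |(z i : ℚ)| ≤ _
      have := hzb i
      exact_mod_cast this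
    have e3 : (p.1 : ℚ) ^ a = (p.1 : ℚ) ^ (s' * (n - 1)) * (p.1 : ℚ) ^ a' := by
      rw [ha, pow_add]
    have e4 : (2 : ℚ) ^ (m * r) * 2 ^ n * 2 ^ k ≤ (p.1 : ℚ) ^ a' := by
      rw [← pow_add, ← pow_add, ← ha']
      exact pow_le_pow_left₀ (by norm_num) hp2 _
    have e5 : (m : ℚ) ^ r / (p.1 : ℚ) ^ a * N none (fun i => (z i : ℚ)) ≤ 1 := by
      calc (m : ℚ) ^ r / (p.1 : ℚ) ^ a * N none (fun i => (z i : ℚ))
          ≤ (m : ℚ) ^ r / (p.1 : ℚ) ^ a * (n * ((p.1 : ℚ) ^ (s' * (n - 1)) * 2 ^ k)) :=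
            mul_le_mul_of_nonneg_left e2 (by positivity)
        _ = ((m : ℚ) ^ r * n * 2 ^ k) / (p.1 : ℚ) ^ a' := by
            rw [e3]
            field_simp
        _ ≤ 1 := by
            rw [div_le_one (by positivity)]
            refine le_trans ?_ e4
            refine mul_le_mul_of_nonneg_right ?_ (by positivity)
            exact mul_le_mul hmr hn2 hn0 (by positivity)
    linarith
  · by_cases hqp : q = p
    · -- the place p
      rw [hqp] at hv
      have e1 : av m (some p) (p.1 : ℚ) = (p.1 : ℚ)⁻¹ := padicNorm.padicNorm_p hp.one_lt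
      have e2 : av m (some p) (m : ℚ) ^ r ≤ 1 :=
        pow_le_one₀ ((av m (some p)).nonneg _) ((mnk_half m p).trans (by norm_num))
      have e3 : (fun i => (z i : ℚ)) = ((z j0 : ℚ) / y j0) • y +
          (fun i => (z i : ℚ) - (z j0 : ℚ) * (y i / y j0)) := by
        funext i
        simp only [Pi.add_apply, Pi.smul_apply, smul_eq_mul]
        ring
      have e4 : N (some p) (fun i => (z i : ℚ)) ≤
          (1 / 2 ^ e) * 2 ^ k + n * ((1 / (p.1 : ℚ) ^ (n * s')) * 2 ^ k) := by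
        rw [e3]
        refine (h2 (some p) _ _).trans (add_le_add ?_ ?_)
        · rw [h1, map_div₀]
          have e5 : av m (some p) (z j0 : ℚ) / av m (some p) (y j0) ≤ 1 / 2 ^ e :=
            div_le_div₀ (by norm_num) (mnk_int m p (z j0)) (by positivity) hY.le
          exact mul_le_mul e5 (hyk (some p)) (mnk_nonneg h1 h2 _ _) (by positivity)
        · refine mnk_le h1 h2 (some p) _ _ (he (some p)) _ ?_
          intro i
          have e6 : (z i : ℚ) - (z j0 : ℚ) * (y i / y j0) =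
              ((z i - z j0 * c i : ℤ) : ℚ) - (z j0 : ℚ) * (y i / y j0 - c i) := by
            push_cast
            ring
          rw [e6]
          show padicNorm p.1 _ ≤ _
          refine (padicNorm.sub).trans (max_le ?_ ?_)
          · have e7 : (((p.1 ^ (n * s') : ℕ) : ℤ)) ∣ (z i - z j0 * c i) := by
              push_cast
              exact hzd i
            have e8 := padicNorm.dvd_iff_norm_le.1 e7
            refine e8.trans (le_of_eq ?_)
            rw [zpow_neg, one_div, zpow_natCast]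
          · rw [padicNorm.mul]
            calc padicNorm p.1 (z j0 : ℚ) * padicNorm p.1 (y i / y j0 - c i)
                ≤ 1 * (1 / (p.1 : ℚ) ^ (n * s')) :=
                  mul_le_mul (mnk_int m p (z j0)) (hcx i) (padicNorm.nonneg _) (by norm_num)
              _ = _ := one_mul _
      have hpa : (p.1 : ℚ) ^ a ≤ 2 ^ (m * a) := by
        rw [pow_mul]
        refine pow_le_pow_left₀ hp0.le ?_ a
        exact le_trans (by exact_mod_cast hpm) (mnk_two m)
      have e9 : (p.1 : ℚ) ^ a * ((1 / 2 ^ e) * 2 ^ k) ≤ 1 / 2 := by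
        have e8 : (2 : ℚ) ^ e = 2 * 2 ^ (m * a) * 2 ^ k := by
          rw [hee, pow_add, pow_add, pow_one]
        calc (p.1 : ℚ) ^ a * ((1 / 2 ^ e) * 2 ^ k) ≤ 2 ^ (m * a) * ((1 / 2 ^ e) * 2 ^ k) :=
              mul_le_mul_of_nonneg_right hpa (by positivity)
          _ = 1 / 2 := by
              rw [e8]
              field_simp
      have e10 : (p.1 : ℚ) ^ a * (n * ((1 / (p.1 : ℚ) ^ (n * s')) * 2 ^ k)) ≤ 1 / 2 := by
        have e11 : (2 : ℚ) * 2 ^ n * 2 ^ k ≤ (p.1 : ℚ) ^ (1 + n + k) := by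
          have : (2 : ℚ) * 2 ^ n * 2 ^ k = 2 ^ (1 + n + k) := by
            rw [pow_add, pow_add, pow_one]
          rw [this]
          exact pow_le_pow_left₀ (by norm_num) hp2 _
        calc (p.1 : ℚ) ^ a * (n * ((1 / (p.1 : ℚ) ^ (n * s')) * 2 ^ k))
            = (n * 2 ^ k) / (p.1 : ℚ) ^ (1 + n + k) := by
              rw [hsa, pow_add]
              field_simp
          _ ≤ (2 ^ n * 2 ^ k) / (2 * 2 ^ n * 2 ^ k) :=
              div_le_div₀ (by positivity) (mul_le_mul_of_nonneg_right hn2 hM0.le)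
                (by positivity) e11
          _ = 1 / 2 := by field_simp
      have e12 : av m (some p) (m : ℚ) ^ r / av m (some p) (p.1 : ℚ) ^ a ≤ (p.1 : ℚ) ^ a := by
        rw [e1, inv_pow, div_inv_eq_mul]
        calc av m (some p) (m : ℚ) ^ r * (p.1 : ℚ) ^ a ≤ 1 * (p.1 : ℚ) ^ a :=
              mul_le_mul_of_nonneg_right e2 (by positivity)
          _ = _ := one_mul _
      have e13 : av m (some p) (m : ℚ) ^ r / av m (some p) (p.1 : ℚ) ^ a *
          N (some p) (fun i => (z i : ℚ)) ≤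
          (p.1 : ℚ) ^ a * ((1 / 2 ^ e) * 2 ^ k + n * ((1 / (p.1 : ℚ) ^ (n * s')) * 2 ^ k)) :=
        mul_le_mul e12 e4 (mnk_nonneg h1 h2 _ _) (by positivity)
      rw [mul_add] at e13
      linarith
    · -- another place
      have hq := Nat.prime_of_mem_primeFactors q.2
      have hqf : Fact q.1.Prime := ⟨hq⟩
      have e1 : av m (some q) (p.1 : ℚ) = 1 := by
        show padicNorm q.1 (p.1 : ℚ) = 1
        rw [padicNorm.nat_eq_one_iff]
        intro g4
        exact hqp (Subtype.ext ((Nat.prime_dvd_prime_iff_eq hq hp).1 g4))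
      rw [e1, one_pow, div_one] at hv
      have e2 : av m (some q) (m : ℚ) ^ r ≤ (1 / 2) ^ r :=
        pow_le_pow_left₀ ((av m (some q)).nonneg _) (mnk_half m q) r
      have e3 : av m (some q) (m : ℚ) ^ r * N (some q) (fun i => (z i : ℚ)) ≤
          (1 / 2) ^ r * (2 ^ n * 2 ^ k) :=
        mul_le_mul e2 (hint q) (mnk_nonneg h1 h2 _ _) (by positivity)
      have e4 : (1 / 2 : ℚ) ^ r * (2 ^ n * 2 ^ k) = 1 := by
        rw [← pow_add, add_comm n k, ← hr, ← mul_pow]
        norm_num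
      rw [e4] at e3
      linarith

end QN
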