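import Pool.Agent.Helper87.QN.Defs

set_option autoImplicit false

/-! Dirichlet at the real place. -/

namespace QN

open QD

theorem mnk_zero {m n : ℕ} {N : Pl m → (Fin n → ℚ) → ℚ}
    (h1 : ∀ v (c : ℚ) x, N v (c • x) = av m v c * N v x) (v : Pl m) : N v 0 = 0 := by
  have := h1 v 0 0
  simpa using this

theorem mnk_nonneg {m n : ℕ} {N : Pl m → (Fin n → ℚ) → ℚ}
    (h1 : ∀ v (c : ℚ) x, N v (c • x) = av m v c * N v x)
    (h2 : ∀ v x y, N v (x + y) ≤ N v x + N v y) (v : Pl m) (x : Fin n → ℚ) : 0 ≤ N v x := by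
  have h3 := h2 v x ((-1 : ℚ) • x)
  rw [h1, map_neg_eq_map, map_one, one_mul] at h3
  have h4 : x + (-1 : ℚ) • x = 0 := by simp
  rw [h4, mnk_zero h1] at h3
  linarith

theorem mnk_sum {m n : ℕ} {N : Pl m → (Fin n → ℚ) → ℚ}
    (h1 : ∀ v (c : ℚ) x, N v (c • x) = av m v c * N v x)
    (h2 : ∀ v x y, N v (x + y) ≤ N v x + N v y) (v : Pl m) {ι : Type} (s : Finset ι)
    (f : ι → Fin n → ℚ) : N v (∑ i ∈ s, f i) ≤ ∑ i ∈ s, N v (f i) := by
  classical
  induction s using Finset.induction_on with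
  | empty => simp [mnk_zero h1]
  | insert a s ha ih =>
    rw [Finset.sum_insert ha, Finset.sum_insert ha]
    exact (h2 v _ _).trans (add_le_add le_rfl ih)

theorem mnk_le {m n : ℕ} {N : Pl m → (Fin n → ℚ) → ℚ}
    (h1 : ∀ v (c : ℚ) x, N v (c • x) = av m v c * N v x)
    (h2 : ∀ v x y, N v (x + y) ≤ N v x + N v y) (v : Pl m) (M a : ℚ)
    (hM : ∀ j, N v (Pi.single j 1) ≤ M) (x : Fin n → ℚ) (hx : ∀ j, av m v (x j) ≤ a) :
    N v x ≤ n * (a * M) := by
  have h3 : x = ∑ j, (x j) • (Pi.single j (1 : ℚ) : Fin n → ℚ) := by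
    funext i
    simp [Finset.sum_apply, Pi.single_apply]
  calc N v x = N v (∑ j, (x j) • (Pi.single j (1 : ℚ) : Fin n → ℚ)) := by rw [← h3]
    _ ≤ ∑ j, N v ((x j) • (Pi.single j (1 : ℚ) : Fin n → ℚ)) := mnk_sum h1 h2 v _ _
    _ ≤ ∑ _j : Fin n, a * M := by
        refine Finset.sum_le_sum fun j _ => ?_
        rw [h1]
        exact mul_le_mul (hx j) (hM j) (mnk_nonneg h1 h2 v _)
          (((av m v).nonneg _).trans (hx j))
    _ = n * (a * M) := by simp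

theorem mnk_dir (n T : ℕ) (hT : 0 < T) (x : Fin n → ℚ) : ∃ (q : ℕ) (z : Fin n → ℤ), 0 < q ∧
    q ≤ T ^ n ∧ ∀ j, |(z j : ℚ) - (q : ℚ) * x j| ≤ 1 / T ∧ (x j = 1 → z j = q) := by
  have hTq : (0 : ℚ) < T := by exact_mod_cast hT
  have hlt : ∀ (a : ℕ) (j : Fin n), (⌊(T : ℚ) * Int.fract ((a : ℚ) * x j)⌋).toNat < T := by
    intro a j
    have h0 := Int.fract_nonneg ((a : ℚ) * x j)
    have h1 := Int.fract_lt_one ((a : ℚ) * x j)
    have h2 : ⌊(T : ℚ) * Int.fract ((a : ℚ) * x j)⌋ < T := by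
      rw [Int.floor_lt]
      push_cast
      nlinarith
    omega
  have key : ∀ a b : Fin (T ^ n + 1), a < b →
      (fun j : Fin n => (⟨_, hlt a.1 j⟩ : Fin T)) = (fun j : Fin n => (⟨_, hlt b.1 j⟩ : Fin T)) →
      ∃ (q : ℕ) (z : Fin n → ℤ), 0 < q ∧
        q ≤ T ^ n ∧ ∀ j, |(z j : ℚ) - (q : ℚ) * x j| ≤ 1 / T ∧ (x j = 1 → z j = q) := by
    intro a b hab hf
    have hab' : a.1 < b.1 := hab
    refine ⟨b.1 - a.1, fun j => ⌊(b.1 : ℚ) * x j⌋ - ⌊(a.1 : ℚ) * x j⌋, by omega, by omega, ?_⟩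
    intro j
    constructor
    · have h1 := congrFun hf j
      have h2 : (⌊(T : ℚ) * Int.fract ((a.1 : ℚ) * x j)⌋).toNat =
          (⌊(T : ℚ) * Int.fract ((b.1 : ℚ) * x j)⌋).toNat := congrArg Fin.val h1
      have h3 : 0 ≤ ⌊(T : ℚ) * Int.fract ((a.1 : ℚ) * x j)⌋ :=
        Int.floor_nonneg.2 (mul_nonneg hTq.le (Int.fract_nonneg _))
      have h4 : 0 ≤ ⌊(T : ℚ) * Int.fract ((b.1 : ℚ) * x j)⌋ :=
        Int.floor_nonneg.2 (mul_nonneg hTq.le (Int.fract_nonneg _))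
      have h5 : ⌊(T : ℚ) * Int.fract ((a.1 : ℚ) * x j)⌋ =
          ⌊(T : ℚ) * Int.fract ((b.1 : ℚ) * x j)⌋ := by omega
      have h6 := Int.abs_sub_lt_one_of_floor_eq_floor h5
      rw [← mul_sub, abs_mul, abs_of_pos hTq] at h6
      have h7 : ((⌊(b.1 : ℚ) * x j⌋ - ⌊(a.1 : ℚ) * x j⌋ : ℤ) : ℚ) - ((b.1 - a.1 : ℕ) : ℚ) * x j =
          Int.fract ((a.1 : ℚ) * x j) - Int.fract ((b.1 : ℚ) * x j) := by
        rw [Int.fract, Int.fract, Nat.cast_sub hab'.le]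
        push_cast
        ring
      rw [h7, le_div_iff₀ hTq, mul_comm]
      exact h6.le
    · intro hx
      show ⌊(b.1 : ℚ) * x j⌋ - ⌊(a.1 : ℚ) * x j⌋ = _
      rw [hx, mul_one, mul_one]
      have h8 : ⌊((b.1 : ℕ) : ℚ)⌋ = (b.1 : ℤ) := Int.floor_natCast _
      have h9 : ⌊((a.1 : ℕ) : ℚ)⌋ = (a.1 : ℤ) := Int.floor_natCast _
      rw [h8, h9, Nat.cast_sub hab'.le]
  obtain ⟨a, b, hab, hf⟩ := Fintype.exists_ne_map_eq_of_card_lt
    (fun (a : Fin (T ^ n + 1)) (j : Fin n) => (⟨_, hlt a.1 j⟩ : Fin T)) (by simp)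
  rcases lt_or_gt_of_ne hab with h | h
  · exact key a b h hf
  · exact key b a h hf.symm

/-- `|m|_p ≤ 1 / 2` for `p ∣ m`. -/
theorem mnk_half (m : ℕ) (p : {p : ℕ // p ∈ m.primeFactors}) :
    av m (some p) (m : ℚ) ≤ 1 / 2 := by
  have hp := Nat.prime_of_mem_primeFactors p.2
  have : Fact p.1.Prime := ⟨hp⟩
  show padicNorm p.1 (m : ℚ) ≤ 1 / 2
  have h4 : ((p.1 ^ 1 : ℕ) : ℤ) ∣ (m : ℤ) := by
    rw [pow_one]; exact_mod_cast Nat.dvd_of_mem_primeFactors p.2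
  have h5 := padicNorm.dvd_iff_norm_le.1 h4
  have h6 : padicNorm p.1 (m : ℚ) ≤ (p.1 : ℚ) ^ (-(1 : ℕ) : ℤ) := by simpa using h5
  refine h6.trans ?_
  have h7 : (2 : ℚ) ≤ p.1 := by exact_mod_cast hp.two_le
  rw [zpow_neg]
  simp only [Nat.cast_one, zpow_one]
  rw [one_div]
  exact inv_anti₀ (by norm_num) h7

theorem mnk_int (m : ℕ) (p : {p : ℕ // p ∈ m.primeFactors}) (z : ℤ) :
    av m (some p) (z : ℚ) ≤ 1 := by
  have hp := Nat.prime_of_mem_primeFactors p.2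
  have : Fact p.1.Prime := ⟨hp⟩
  exact padicNorm.of_int z

theorem mnk_natB (m : ℕ) (z : ℤ) : (z : ℚ) ∈ Bm m := by
  intro p hp _
  have : Fact p.Prime := ⟨hp⟩
  exact padicNorm.of_int z

theorem mnk_two (m : ℕ) : (m : ℚ) ≤ 2 ^ m := by
  exact_mod_cast (Nat.lt_two_pow_self (n := m)).le

theorem st_MNKr : ST_MNKr := by
  intro m n hm _
  refine ⟨2 + m * (n + 1) + n * (2 + m * (n + 1) + n), ?_⟩
  intro N h1 h2 h3 k he y hy hyk j
  by_contra hj
  rw [not_le] at hj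
  obtain ⟨j0, -, hj0⟩ := Finset.exists_max_image Finset.univ (fun j => |y j|)
    ⟨j, Finset.mem_univ j⟩
  have hj0' : ∀ i, |y i| ≤ |y j0| := fun i => hj0 i (Finset.mem_univ i)
  obtain ⟨r, hr⟩ : ∃ r, r = k + n := ⟨_, rfl⟩
  obtain ⟨t, ht⟩ : ∃ t, t = 1 + m * r + n + k := ⟨_, rfl⟩
  obtain ⟨e, hee⟩ : ∃ e, e = 1 + m * r + n * t + k := ⟨_, rfl⟩
  have hC : e ≤ (2 + m * (n + 1) + n * (2 + m * (n + 1) + n)) * (k + 1) := by
    rw [hee, ht, hr]
    refine Nat.le.intro (k := k + 1 + m * n * k + m + n * k + n + n * n * m * k + n * m +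
      n * n * k) ?_
    ring
  have hY : (2 : ℚ) ^ e < |y j0| := by
    refine lt_of_le_of_lt ?_ (lt_of_lt_of_le hj (hj0' j))
    exact pow_le_pow_right₀ (by norm_num) hC
  have hY0 : 0 < |y j0| := lt_trans (by positivity) hY
  have hy0 : y j0 ≠ 0 := abs_pos.1 hY0
  obtain ⟨q, z, hq, hqT, hz⟩ := mnk_dir n (2 ^ t) (by positivity) (fun i => y i / y j0)
  have hzj0 : z j0 = q := (hz j0).2 (div_self hy0)
  have hM0 : (0 : ℚ) < 2 ^ k := by positivity
  have hn2 : (n : ℚ) ≤ 2 ^ n := by exact_mod_cast (Nat.lt_two_pow_self (n := n)).le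
  have hn0 : (0 : ℚ) ≤ n := by positivity
  have hmr : (m : ℚ) ^ r ≤ 2 ^ (m * r) := by
    rw [pow_mul]
    exact pow_le_pow_left₀ (by positivity) (mnk_two m) r
  have hmq : (0 : ℚ) < m := by exact_mod_cast hm
  -- the vector
  have hx'L : (fun i => (m : ℚ) ^ r * (z i : ℚ)) ∈ Lam m n := by
    intro i
    have := mnk_natB m ((m : ℤ) ^ r * z i)
    push_cast at this
    exact this
  have hx'0 : (fun i => (m : ℚ) ^ r * (z i : ℚ)) ≠ 0 := by
    intro h
    have h4 := congrFun h j0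
    simp only [Pi.zero_apply] at h4
    rw [hzj0] at h4
    have h5 : (0 : ℚ) < (m : ℚ) ^ r * ((q : ℤ) : ℚ) := by
      have : (0 : ℚ) < (q : ℚ) := by exact_mod_cast hq
      push_cast
      positivity
    linarith
  obtain ⟨v, hv⟩ := h3 _ hx'L hx'0
  have hsm : (fun i => (m : ℚ) ^ r * (z i : ℚ)) = ((m : ℚ) ^ r) • (fun i => (z i : ℚ)) := by
    funext i
    simp
  rw [hsm, h1, map_pow] at hv
  rcases v with _ | p
  · -- real place
    have e1 : av m none (m : ℚ) = m := abs_of_pos hmq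
    rw [e1] at hv
    have e2 : (fun i => (z i : ℚ)) = ((q : ℚ) / y j0) • y +
        (fun i => (z i : ℚ) - (q : ℚ) * (y i / y j0)) := by
      funext i
      simp only [Pi.add_apply, Pi.smul_apply, smul_eq_mul]
      ring
    have e3 : N none (fun i => (z i : ℚ)) ≤
        ((q : ℚ) / |y j0|) * 2 ^ k + n * ((1 / 2 ^ t) * 2 ^ k) := by
      rw [e2]
      refine (h2 none _ _).trans (add_le_add ?_ ?_)
      · rw [h1]
        have e4 : av m none ((q : ℚ) / y j0) = (q : ℚ) / |y j0| := by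
          show |(q : ℚ) / y j0| = _
          rw [abs_div, abs_of_nonneg (by positivity : (0 : ℚ) ≤ q)]
        rw [e4]
        exact mul_le_mul_of_nonneg_left (hyk none) (by positivity)
      · refine mnk_le h1 h2 none _ _ (he none) _ ?_
        intro i
        have := (hz i).1
        push_cast at this
        exact this
    have e5 : (q : ℚ) ≤ 2 ^ (n * t) := by
      have : (q : ℚ) ≤ ((2 ^ t) ^ n : ℕ) := by exact_mod_cast hqT
      push_cast at this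
      rwa [← pow_mul, mul_comm t n] at this
    have e6 : (m : ℚ) ^ r * (((q : ℚ) / |y j0|) * 2 ^ k) ≤ 1 / 2 := by
      have e7 : (q : ℚ) / |y j0| ≤ 2 ^ (n * t) / 2 ^ e := div_le_div₀ (by positivity) e5 (by positivity) hY.le
      have e8 : (2 : ℚ) ^ e = 2 * 2 ^ (m * r) * 2 ^ (n * t) * 2 ^ k := by
        rw [hee, pow_add, pow_add, pow_add, pow_one]
      calc (m : ℚ) ^ r * (((q : ℚ) / |y j0|) * 2 ^ k)
          ≤ 2 ^ (m * r) * ((2 ^ (n * t) / 2 ^ e) * 2 ^ k) := by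
            apply mul_le_mul hmr _ (by positivity) (by positivity)
            exact mul_le_mul_of_nonneg_right e7 (by positivity)
        _ = 1 / 2 := by
            rw [e8]
            field_simp
    have e9 : (m : ℚ) ^ r * (n * ((1 / 2 ^ t) * 2 ^ k)) ≤ 1 / 2 := by
      have e8 : (2 : ℚ) ^ t = 2 * 2 ^ (m * r) * 2 ^ n * 2 ^ k := by
        rw [ht, pow_add, pow_add, pow_add, pow_one]
      calc (m : ℚ) ^ r * (n * ((1 / 2 ^ t) * 2 ^ k))
          ≤ 2 ^ (m * r) * (2 ^ n * ((1 / 2 ^ t) * 2 ^ k)) := by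
            apply mul_le_mul hmr _ (by positivity) (by positivity)
            exact mul_le_mul_of_nonneg_right hn2 (by positivity)
        _ = 1 / 2 := by
            rw [e8]
            field_simp
    have e10 : (m : ℚ) ^ r * N none (fun i => (z i : ℚ)) ≤
        (m : ℚ) ^ r * (((q : ℚ) / |y j0|) * 2 ^ k + n * ((1 / 2 ^ t) * 2 ^ k)) :=
      mul_le_mul_of_nonneg_left e3 (by positivity)
    rw [mul_add] at e10
    linarith
  · -- p-adic place
    have e1 : N (some p) (fun i => (z i : ℚ)) ≤ n * (1 * 2 ^ k) :=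
      mnk_le h1 h2 (some p) _ _ (he (some p)) _ fun i => mnk_int m p (z i)
    have e2 : av m (some p) (m : ℚ) ^ r ≤ (1 / 2) ^ r :=
      pow_le_pow_left₀ ((av m (some p)).nonneg _) (mnk_half m p) r
    have e3 : av m (some p) (m : ℚ) ^ r * N (some p) (fun i => (z i : ℚ)) ≤
        (1 / 2) ^ r * (2 ^ n * 2 ^ k) := by
      refine mul_le_mul e2 (e1.trans ?_) (mnk_nonneg h1 h2 _ _) (by positivity)
      rw [one_mul]
      exact mul_le_mul_of_nonneg_right hn2 (by positivity)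
    have e4 : (1 / 2 : ℚ) ^ r * (2 ^ n * 2 ^ k) = 1 := by
      rw [← pow_add, add_comm n k, ← hr, ← mul_pow]
      norm_num
    rw [e4] at e3
    linarith

end QN
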